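import Pool.Agent.Helper886.HCube.Numeric

/-! Hamiltonian circuits of the cube: the asymptotic optimisation of the numerical parameters. -/

set_option autoImplicit false

namespace Pool.Agent.Y161.HQ

open Filter Pool.Agent.Helper886.HCube

theorem lim_aux : Tendsto (fun n : ℕ => 3 * (Real.log n / (n : ℝ) ^ (1 / 2 : ℝ)) -
    Real.log (1 - (4 * (Real.log n / n) + 6 * (1 / (n : ℝ))))) atTop (nhds 0) := by
  have h1 : Tendsto (fun n : ℕ => Real.log n / (n : ℝ) ^ (1 / 2 : ℝ)) atTop (nhds 0) :=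
    ((isLittleO_log_rpow_atTop (by norm_num : (0 : ℝ) < 1 / 2)).tendsto_div_nhds_zero).comp
      tendsto_natCast_atTop_atTop
  have h2 : Tendsto (fun n : ℕ => Real.log n / (n : ℝ)) atTop (nhds 0) :=
    (Real.isLittleO_log_id_atTop.tendsto_div_nhds_zero).comp tendsto_natCast_atTop_atTop
  have h3 : Tendsto (fun n : ℕ => 1 / (n : ℝ)) atTop (nhds 0) :=
    tendsto_one_div_atTop_nhds_zero_nat
  have h4 : Tendsto (fun n : ℕ => 1 - (4 * (Real.log n / n) + 6 * (1 / (n : ℝ)))) atTop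
      (nhds (1 - (4 * 0 + 6 * 0))) :=
    tendsto_const_nhds.sub ((h2.const_mul 4).add (h3.const_mul 6))
  have h5 : Tendsto (fun n : ℕ => Real.log (1 - (4 * (Real.log n / n) + 6 * (1 / (n : ℝ)))))
      atTop (nhds (Real.log (1 - (4 * 0 + 6 * 0)))) := h4.log (by norm_num)
  have h6 := (h1.const_mul 3).sub h5
  simpa using h6

theorem numeric (k : ℝ) (hk0 : 0 < k) (hk : k < 1 / (4 * Real.exp 1)) : ∃ n₀ : ℕ, ∀ n : ℕ, n₀ ≤ n →
    ∃ c d h : ℕ, n = c + d + ((2 * h + 1) + (2 * h + 1)) ∧ 1 ≤ d ∧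
      (k * n) ^ (2 ^ n) <
        ((((h : ℝ) + 1) / Real.exp 1) ^ (2 ^ (4 * h + 1))) ^ ((2 ^ c - 1) * 2 ^ d) *
        (((d : ℝ) / Real.exp 1) ^ (2 ^ (d - 1))) ^
          ((2 ^ c - 1) * (2 ^ (4 * h + 2) - (2 * h + 1).choose (h + 1) * 2 ^ (2 * h))) := by
  have hepos := Real.exp_pos (1 : ℝ)
  have he := Real.exp_one_lt_d9
  have hδ : 0 < -(2 * Real.log (4 * Real.exp 1 * k)) := by
    have h1 : 4 * Real.exp 1 * k < 1 := by
      rw [lt_div_iff₀ (by positivity)] at hk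
      linarith
    have h2 := Real.log_neg (by positivity) h1
    linarith
  have hu : ∀ᶠ n : ℕ in atTop, 1 / 2 < 1 - (4 * (Real.log n / n) + 6 * (1 / (n : ℝ))) := by
    have h2 : Tendsto (fun n : ℕ => Real.log n / (n : ℝ)) atTop (nhds 0) :=
      (Real.isLittleO_log_id_atTop.tendsto_div_nhds_zero).comp tendsto_natCast_atTop_atTop
    have h3 : Tendsto (fun n : ℕ => 1 / (n : ℝ)) atTop (nhds 0) :=
      tendsto_one_div_atTop_nhds_zero_nat
    have h4 : Tendsto (fun n : ℕ => 1 - (4 * (Real.log n / n) + 6 * (1 / (n : ℝ)))) atTop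
        (nhds (1 - (4 * 0 + 6 * 0))) :=
      tendsto_const_nhds.sub ((h2.const_mul 4).add (h3.const_mul 6))
    exact h4.eventually (lt_mem_nhds (by norm_num))
  obtain ⟨n₀, hn₀⟩ := eventually_atTop.1 ((lim_aux.eventually (gt_mem_nhds hδ)).and
    (hu.and (eventually_ge_atTop 200)))
  refine ⟨n₀, fun n hn => ?_⟩
  obtain ⟨hlim, hu2, hn200⟩ := hn₀ n hn
  have hnR : (200 : ℝ) ≤ n := by exact_mod_cast hn200
  have hn0 : (0 : ℝ) < n := by linarith
  set u : ℝ := 1 - (4 * (Real.log n / n) + 6 * (1 / (n : ℝ))) with hudef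
  have hun : (n : ℝ) / 2 * u = n / 2 - 2 * Real.log n - 3 := by
    rw [hudef]
    field_simp
    ring
  have hlogn : 0 ≤ Real.log n := Real.log_natCast_nonneg n
  obtain ⟨h, hh⟩ : ∃ h, h = n / 8 := ⟨_, rfl⟩
  obtain ⟨c, hc⟩ : ∃ c, c = Nat.log 2 n + 1 := ⟨_, rfl⟩
  have hh1 : 8 * h ≤ n := by omega
  have hh2 : n < 8 * (h + 1) := by omega
  have hcR : (c : ℝ) ≤ 2 * Real.log n + 1 := by
    have h1 : ((Nat.log 2 n : ℕ) : ℝ) ≤ Real.logb 2 n := by
      exact_mod_cast Real.natLog_le_logb n 2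
    have h2 : Real.logb 2 n ≤ 2 * Real.log n := by
      rw [Real.logb, div_le_iff₀ (Real.log_pos (by norm_num))]
      have h3 := Real.log_two_gt_d9
      have h4 := mul_le_mul_of_nonneg_left (show (1 / 2 : ℝ) ≤ Real.log 2 by linarith) hlogn
      linarith
    rw [hc]
    push_cast
    linarith
  have hh1R : 8 * (h : ℝ) ≤ n := by exact_mod_cast hh1
  have hh2R : (n : ℝ) < 8 * ((h : ℝ) + 1) := by exact_mod_cast hh2
  have hsum : (c : ℝ) + 4 * h + 2 + n / 2 * u ≤ n := by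
    rw [hun]
    linarith
  have hu4 : (n : ℝ) / 4 < n / 2 * u := by
    have h1 := mul_lt_mul_of_pos_left hu2 (half_pos hn0)
    linarith
  have hle : c + 4 * h + 2 ≤ n := by
    have h1 : (c : ℝ) + 4 * h + 2 ≤ n := by linarith
    exact_mod_cast h1
  obtain ⟨d, hd⟩ : ∃ d, n = c + 4 * h + 2 + d := Nat.exists_eq_add_of_le hle
  have hdR : (n : ℝ) = c + 4 * h + 2 + d := by exact_mod_cast hd
  have hdu : (n : ℝ) / 2 * u ≤ d := by linarith
  have hd50 : (n : ℝ) / 4 ≤ d := by linarith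
  have hdpos : 1 ≤ d := by
    have h1 : (1 : ℝ) ≤ d := by linarith
    exact_mod_cast h1
  refine ⟨c, d, h, by omega, hdpos, ?_⟩
  -- bases
  set b1 : ℝ := ((h : ℝ) + 1) / Real.exp 1 with hb1
  set b2 : ℝ := (d : ℝ) / Real.exp 1 with hb2
  have h1b1 : 1 ≤ b1 := by
    rw [hb1, le_div_iff₀ hepos]
    linarith
  have h1b2 : 1 ≤ b2 := by
    rw [hb2, le_div_iff₀ hepos]
    linarith
  have he1 : 1 ≤ Real.exp 1 := Real.one_le_exp (by norm_num)
  have hne : (n : ℝ) ≤ n * Real.exp 1 := le_mul_of_one_le_right hn0.le he1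
  have hb1n : b1 ≤ n := by
    rw [hb1, div_le_iff₀ hepos]
    linarith
  have hb2n : b2 ≤ n := by
    rw [hb2, div_le_iff₀ hepos]
    have h1 : (0 : ℝ) ≤ c := Nat.cast_nonneg c
    have h2 : (0 : ℝ) ≤ h := Nat.cast_nonneg h
    linarith
  have hX0 : 0 ≤ Real.log b1 := Real.log_nonneg h1b1
  have hY0 : 0 ≤ Real.log b2 := Real.log_nonneg h1b2
  have hXn : Real.log b1 ≤ Real.log n := Real.log_le_log (by linarith) hb1n
  have hYn : Real.log b2 ≤ Real.log n := Real.log_le_log (by linarith) hb2n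
  have hu0 : 0 < u := by linarith
  have hXY : 2 * Real.log n + Real.log u - 2 * Real.log (4 * Real.exp 1) ≤
      Real.log b1 + Real.log b2 := by
    have h1 : Real.log ((n : ℝ) ^ 2 * u / (4 * Real.exp 1) ^ 2) ≤ Real.log (b1 * b2) := by
      apply Real.log_le_log (by positivity)
      rw [hb1, hb2, div_mul_div_comm, div_le_div_iff₀ (by positivity) (by positivity)]
      have h2 : (n : ℝ) / 8 * (n / 2 * u) ≤ ((h : ℝ) + 1) * d := by
        apply mul_le_mul (by linarith) hdu (by positivity) (by positivity)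
      have h3 : 0 ≤ Real.exp 1 * Real.exp 1 := by positivity
      have h4 := mul_le_mul_of_nonneg_right h2 h3
      have e1 : (n : ℝ) ^ 2 * u * (Real.exp 1 * Real.exp 1) =
          16 * ((n : ℝ) / 8 * (n / 2 * u) * (Real.exp 1 * Real.exp 1)) := by ring
      have e2 : ((h : ℝ) + 1) * d * (4 * Real.exp 1) ^ 2 =
          16 * (((h : ℝ) + 1) * d * (Real.exp 1 * Real.exp 1)) := by ring
      rw [e1, e2]
      exact mul_le_mul_of_nonneg_left h4 (by norm_num)
    have h5 : Real.log (b1 * b2) = Real.log b1 + Real.log b2 :=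
      Real.log_mul (by linarith) (by linarith)
    have h6 : Real.log ((n : ℝ) ^ 2 * u / (4 * Real.exp 1) ^ 2) =
        2 * Real.log n + Real.log u - 2 * Real.log (4 * Real.exp 1) := by
      rw [Real.log_div (by positivity) (by positivity), Real.log_mul (by positivity) hu0.ne',
        Real.log_pow, Real.log_pow]
      push_cast
      ring
    rw [h5, h6] at h1
    exact h1
  -- the central binomial coefficient
  set C : ℝ := ((2 * h + 1).choose (h + 1) : ℝ) with hC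
  have hCle : (2 * h + 1).choose (h + 1) * 2 ^ (2 * h) ≤ 2 ^ (4 * h + 2) := by
    have h1 : (2 * h + 1).choose (h + 1) ≤ 2 ^ (2 * h + 1) := Nat.choose_le_two_pow _ _
    calc (2 * h + 1).choose (h + 1) * 2 ^ (2 * h) ≤ 2 ^ (2 * h + 1) * 2 ^ (2 * h) :=
          Nat.mul_le_mul_right _ h1
      _ = 2 ^ (4 * h + 1) := by rw [← pow_add]; congr 1; ring
      _ ≤ 2 ^ (4 * h + 2) := Nat.pow_le_pow_right (by norm_num) (by omega)
  have hCsq : C ^ 2 * (8 * (h : ℝ) + 12) ≤ 16 ^ (h + 1) := by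
    have h1 := numeric_cb (h + 1)
    rw [← numeric_choose h] at h1
    have h2 : ((2 * (2 * h + 1).choose (h + 1)) ^ 2 * (2 * (h + 1) + 1) : ℝ) ≤ 16 ^ (h + 1) := by
      exact_mod_cast h1
    calc C ^ 2 * (8 * (h : ℝ) + 12) =
          ((2 * (2 * h + 1).choose (h + 1)) ^ 2 * (2 * (h + 1) + 1) : ℝ) := by
          rw [hC]; push_cast; ring
      _ ≤ _ := h2
  have hC0 : 0 ≤ C := by rw [hC]; positivity
  have hsn : 0 < √(n : ℝ) := Real.sqrt_pos.2 hn0
  have hsn2 : √(n : ℝ) ^ 2 = n := Real.sq_sqrt hn0.le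
  have hCb : C * √(n : ℝ) ≤ 2 ^ (2 * h + 2) := by
    have h1 : (C * √(n : ℝ)) ^ 2 ≤ (2 ^ (2 * h + 2)) ^ 2 := by
      calc (C * √(n : ℝ)) ^ 2 = C ^ 2 * n := by rw [mul_pow, hsn2]
        _ ≤ C ^ 2 * (8 * (h : ℝ) + 12) := mul_le_mul_of_nonneg_left (by linarith) (by positivity)
        _ ≤ 16 ^ (h + 1) := hCsq
        _ = (2 ^ (2 * h + 2)) ^ 2 := by
            rw [← pow_mul, show (16 : ℝ) = 2 ^ 4 by norm_num, ← pow_mul]
            congr 1
            ring
    exact le_of_sq_le_sq h1 (by positivity)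
  -- the logarithms
  set ε₁ : ℝ := 1 / 2 ^ c with hε₁
  set ε₂ : ℝ := C / 2 ^ (2 * h + 2) with hε₂
  have hε₁n : ε₁ ≤ 1 / √(n : ℝ) := by
    rw [hε₁]
    apply one_div_le_one_div_of_le hsn
    have h1 : n < 2 ^ c := by
      rw [hc]
      exact Nat.lt_pow_succ_log_self (by norm_num) n
    have h2 : (n : ℝ) ≤ 2 ^ c := by exact_mod_cast h1.le
    have h3 : √(n : ℝ) ≤ n := by
      rw [Real.sqrt_le_left hn0.le, sq]
      exact le_mul_of_one_le_right hn0.le (by linarith)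
    linarith
  have hε₂n : ε₂ ≤ 1 / √(n : ℝ) := by
    rw [hε₂, div_le_div_iff₀ (by positivity) hsn]
    linarith
  have hε₁0 : 0 ≤ ε₁ := by rw [hε₁]; positivity
  have hε₂0 : 0 ≤ ε₂ := by rw [hε₂]; positivity
  have hpos1 : 0 < b1 := by linarith
  have hpos2 : 0 < b2 := by linarith
  rw [← pow_mul, ← pow_mul]
  have hkn : 0 < k * n := by positivity
  rw [← Real.log_lt_log_iff (by positivity) (by positivity), Real.log_mul (by positivity)
    (by positivity), Real.log_pow, Real.log_pow, Real.log_pow]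
  have hN : (2 : ℝ) ^ n = 2 ^ c * (2 * 2 ^ (d - 1)) * (2 * 2 ^ (4 * h + 1)) := by
    rw [← pow_succ', ← pow_succ', ← pow_add, ← pow_add]
    congr 1
    omega
  have hE1R : ((2 ^ (4 * h + 1) * ((2 ^ c - 1) * 2 ^ d) : ℕ) : ℝ) = 2 ^ n / 2 * (1 - ε₁) := by
    rw [Nat.cast_mul, Nat.cast_mul, Nat.cast_sub Nat.one_le_two_pow, hN, hε₁]
    push_cast
    have h2d : (2 : ℝ) ^ d = 2 * 2 ^ (d - 1) := by
      rw [← pow_succ']; congr 1; omega
    rw [h2d]
    field_simp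
  have hE2R : ((2 ^ (d - 1) * ((2 ^ c - 1) * (2 ^ (4 * h + 2) -
      (2 * h + 1).choose (h + 1) * 2 ^ (2 * h))) : ℕ) : ℝ) =
      2 ^ n / 2 * ((1 - ε₁) * (1 - ε₂)) := by
    rw [Nat.cast_mul, Nat.cast_mul, Nat.cast_sub hCle, Nat.cast_sub Nat.one_le_two_pow, hN, hε₁,
      hε₂]
    push_cast
    rw [← hC]
    have e1 : (2 : ℝ) ^ (4 * h + 1) = 2 ^ (2 * h) * 2 ^ (2 * h) * 2 := by
      rw [← pow_add, ← pow_succ]
      congr 1
      ring
    have e2 : (2 : ℝ) ^ (4 * h + 2) = 2 ^ (2 * h) * 2 ^ (2 * h) * 4 := by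
      rw [show 4 * h + 2 = (4 * h + 1) + 1 by ring, pow_succ, e1]
      ring
    have e3 : (2 : ℝ) ^ (2 * h + 2) = 2 ^ (2 * h) * 4 := by
      rw [pow_add]
      norm_num
    rw [e1, e2, e3]
    field_simp
    ring
  rw [hE1R, hE2R]
  push_cast
  have hNpos : (0 : ℝ) < 2 ^ n := by positivity
  have hlogkn : Real.log (k * n) = Real.log k + Real.log n := Real.log_mul hk0.ne' hn0.ne'
  have h4ek : Real.log (4 * Real.exp 1 * k) = Real.log (4 * Real.exp 1) + Real.log k :=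
    Real.log_mul (by positivity) hk0.ne'
  have hrpow : (n : ℝ) ^ (1 / 2 : ℝ) = √(n : ℝ) := (Real.sqrt_eq_rpow _).symm
  rw [hrpow] at hlim
  have hq : 3 * (Real.log n / √(n : ℝ)) = 3 * (1 / √(n : ℝ) * Real.log n) := by ring
  rw [hq] at hlim
  set r : ℝ := 1 / √(n : ℝ) with hr
  have hr0 : 0 ≤ r := by rw [hr]; positivity
  have hmain : 2 * (Real.log k + Real.log n) <
      (1 - ε₁) * Real.log b1 + (1 - ε₁) * (1 - ε₂) * Real.log b2 := by
    have h1 : ε₁ * Real.log b1 ≤ r * Real.log n :=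
      mul_le_mul hε₁n hXn hX0 hr0
    have h2 : ε₁ * Real.log b2 ≤ r * Real.log n :=
      mul_le_mul hε₁n hYn hY0 hr0
    have h3 : ε₂ * Real.log b2 ≤ r * Real.log n :=
      mul_le_mul hε₂n hYn hY0 hr0
    have h4 : 0 ≤ ε₁ * (ε₂ * Real.log b2) := by positivity
    have h5 : (1 - ε₁) * Real.log b1 + (1 - ε₁) * (1 - ε₂) * Real.log b2 =
        Real.log b1 + Real.log b2 - ε₁ * Real.log b1 - ε₁ * Real.log b2 - ε₂ * Real.log b2 +
          ε₁ * (ε₂ * Real.log b2) := by ring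
    rw [h5]
    linarith
  rw [hlogkn]
  have hf := mul_lt_mul_of_pos_left hmain (half_pos hNpos)
  have e1 : (2 : ℝ) ^ n / 2 * (2 * (Real.log k + Real.log n)) =
      2 ^ n * (Real.log k + Real.log n) := by ring
  have e2 : (2 : ℝ) ^ n / 2 * ((1 - ε₁) * Real.log b1 + (1 - ε₁) * (1 - ε₂) * Real.log b2) =
      2 ^ n / 2 * (1 - ε₁) * Real.log b1 + 2 ^ n / 2 * ((1 - ε₁) * (1 - ε₂)) * Real.log b2 := by
    ring
  rw [e1, e2] at hf
  exact hf

end Pool.Agent.Y161.HQ
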